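import Pool.Agent.Lib.MP_568911_lc.Defs
import Pool.Agent.Lib.MP_568911_lc.OneBased2
import Pool.Agent.Lib.MP_568911_lc.Existence
import Pool.Agent.Lib.MP_568911_lc.Sop2

/-!
# A one-based NSOP₁ theory which fails the existence axiom

The theory constructed in `Pool.Agent.Lib.MP_568911_lc` is complete, its language is countable,
it is NSOP₁ and one-based, and already over the empty set every type in one variable forks.
-/

namespace Pool.Agent.Results.MP_568911_lc.NoExistence
open FirstOrder FirstOrder.Language Cardinal Pool.Agent.MP568911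
universe w

/-- There is a complete NSOP₁ theory `T` in a countable language such that every `κ`-saturated
model `𝕄` of `T`, `κ` uncountable, is one-based and fails the existence axiom. -/
theorem result : ∃ (L : FirstOrder.Language.{0, 0}) (T : L.Theory),
    Countable L.Symbols ∧ T.IsComplete ∧ IsNSOP1.{w} T ∧
    (∃ (𝕄 : Type w) (_ : L.Structure 𝕄), Nonempty 𝕄 ∧ 𝕄 ⊨ T ∧ IsSaturated L 𝕄 (ℵ_ 1)) ∧
    ∀ (κ : Cardinal.{w}) (𝕄 : Type w) [L.Structure 𝕄] [Nonempty 𝕄], ℵ₀ < κ → 𝕄 ⊨ T →
      IsSaturated L 𝕄 κ → IsOneBasedIn L 𝕄 κ ∧ ¬ ExistenceIn L 𝕄 κ := by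
  obtain ⟨N, _, hN, hT⟩ := exists_isT.{w}
  have key : ∀ (M : Type w) [LL.Structure M], M ⊨ LL.completeTheory N → IsT M := by
    intro M _ hM
    refine IsT.transfer ?_ hT
    rw [elementarilyEquivalent_iff]
    intro φ
    constructor
    · intro h
      exact hM.realize_of_mem φ h
    · intro h
      by_contra hcon
      have h1 : N ⊨ (∼φ : LL.Sentence) := hcon
      have h2 : M ⊨ (∼φ : LL.Sentence) := hM.realize_of_mem _ h1
      exact h2 h
  refine ⟨LL, LL.completeTheory N, ?_, ?_, ?_, ?_, ?_⟩
  · unfold Language.Symbols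
    infer_instance
  · exact completeTheory.isComplete LL N
  · intro M _ _ hM p m φ
    exact not_hasSOP1 (key M hM) φ
  · refine ⟨UP N, inferInstance, inferInstance, ?_, up_saturated LL N⟩
    rw [Theory.model_iff]
    intro φ hφ
    exact ((up_elementarilyEquivalent LL N).realize_sentence φ).1 hφ
  · intro κ 𝕄 _ _ hκ hM hs
    exact ⟨oneBased hκ (key 𝕄 hM) hs, not_existence hκ (key 𝕄 hM) hs⟩

end Pool.Agent.Results.MP_568911_lc.NoExistence
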